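import Pool.Agent.H923R2.FP.Stubs

set_option autoImplicit false

namespace Pool.Agent.H923R2.FP.T_NRM

open Pool.Agent.H923R2.FP Filter Topology

theorem cfc_sq {A : Type} [CStarAlgebra A] (S : A) (f : ℝ → ℝ) (hf : Continuous f)
    (h0 : ∀ t ∈ spectrum ℝ S, 0 ≤ f t) : ∃ b : A, cfc f S = star b * b := by
  refine ⟨cfc (fun t => Real.sqrt (f t)) S, ?_⟩
  have hsa : IsSelfAdjoint (cfc (fun t => Real.sqrt (f t)) S) := cfc_predicate _ _
  rw [hsa.star_eq, ← cfc_mul (fun t => Real.sqrt (f t)) (fun t => Real.sqrt (f t)) S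
    (by fun_prop) (by fun_prop)]
  exact cfc_congr fun t ht => (Real.mul_self_sqrt (h0 t ht)).symm

theorem key {A B : Type} [CStarAlgebra A] [CStarAlgebra B] (τ : A →ₗ[ℂ] ℂ)
    (τ' : B →ₗ[ℂ] ℂ) (h : FTS τ) (h' : FTS τ') (x : A) (y : B)
    (hm : ∀ n : ℕ, τ ((star x * x) ^ n) = τ' ((star y * y) ^ n)) :
    ‖star y * y‖ ≤ ‖star x * x‖ := by
  by_contra hlt
  push Not at hlt
  set S := star x * x with hS
  set S' := star y * y with hS'
  obtain ⟨c, hc1, hc2⟩ := exists_between hlt
  have hc0 : 0 < c := lt_of_le_of_lt (norm_nonneg _) hc1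
  have hsa : IsSelfAdjoint S' := IsSelfAdjoint.star_mul_self y
  have hnn : ∀ t ∈ spectrum ℝ S', 0 ≤ t := fun t ht => spectrum_star_mul_self_nonneg t ht
  have hne : S' ≠ 0 := by
    intro h0
    rw [h0, norm_zero] at hc2
    linarith
  haveI : Nontrivial B := ⟨⟨S', 0, hne⟩⟩
  have hmem : ‖S'‖ ∈ spectrum ℝ S' := by
    rcases CStarAlgebra.norm_or_neg_norm_mem_spectrum hsa with h1 | h1
    · exact h1
    · have := hnn _ h1
      have h2 : 0 < ‖S'‖ := norm_pos_iff.2 hne
      linarith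
  set f : ℝ → ℝ := fun t => min 1 (max 0 (t - c)) with hf
  have hfc : Continuous f := by fun_prop
  have hf0 : ∀ t, 0 ≤ f t := fun t => le_min zero_le_one (le_max_left _ _)
  obtain ⟨b, hb⟩ := cfc_sq S' f hfc fun t _ => hf0 t
  have hpos : 0 < (τ' (cfc f S')).re := by
    rw [hb]
    refine lt_of_le_of_ne (h'.nonneg b) fun h0 => ?_
    have hb0 := h'.faith b h0.symm
    rw [hb0, mul_zero] at hb
    have h1 : f ‖S'‖ ∈ spectrum ℝ (cfc f S') := by
      rw [cfc_map_spectrum f S' hsa hfc.continuousOn]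
      exact ⟨_, hmem, rfl⟩
    rw [hb, spectrum.zero_eq] at h1
    have h2 : 0 < f ‖S'‖ := lt_min one_pos (lt_max_of_lt_right (by linarith))
    rw [Set.mem_singleton_iff] at h1
    linarith
  set κ := (τ' (cfc f S')).re with hκ
  have hlow : ∀ n : ℕ, c ^ n * κ ≤ ‖S‖ ^ n := by
    intro n
    have h1 : (τ' (S' ^ n)).re ≤ ‖S‖ ^ n := by
      rw [← hm n]
      refine (Complex.re_le_norm _).trans ((h.bound _).trans ?_)
      rcases Nat.eq_zero_or_pos n with hn | hn
      · subst hn
        rw [pow_zero, pow_zero]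
        rcases subsingleton_or_nontrivial A with hA | hA
        · rw [Subsingleton.elim (1 : A) 0, norm_zero]; exact zero_le_one
        · rw [CStarRing.norm_one]
      · exact norm_pow_le' _ hn
    refine le_trans ?_ h1
    obtain ⟨d, hd⟩ := cfc_sq S' (fun t => t ^ n - c ^ n * f t) (by fun_prop) (by
      intro t ht
      have ht0 := hnn t ht
      rcases le_total t c with htc | htc
      · have : f t = 0 := by
          simp only [hf]
          rw [max_eq_left (by linarith), min_eq_right zero_le_one]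
        rw [this]
        have := pow_nonneg ht0 n
        linarith
      · have h2 : f t ≤ 1 := min_le_left _ _
        have h3 : c ^ n ≤ t ^ n := pow_le_pow_left₀ hc0.le htc n
        have h4 : 0 < c ^ n := by positivity
        nlinarith)
    have h5 : cfc (fun t => t ^ n - c ^ n * f t) S' = S' ^ n - (c ^ n : ℝ) • cfc f S' := by
      rw [cfc_sub (fun t => t ^ n) (fun t => c ^ n * f t) S' (by fun_prop) (by fun_prop),
        cfc_pow_id S' n hsa, cfc_const_mul (c ^ n) f S' hfc.continuousOn]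
    have h6 := h'.nonneg d
    rw [← hd, h5, map_sub] at h6
    have h7 : τ' ((c ^ n : ℝ) • cfc f S') = ((c ^ n : ℝ) : ℂ) * τ' (cfc f S') := by
      have : ((c ^ n : ℝ) • cfc f S') = (((c ^ n : ℝ) : ℂ)) • cfc f S' :=
        (Complex.coe_smul _ _).symm
      rw [this, map_smul, smul_eq_mul]
    rw [h7, Complex.sub_re, Complex.re_ofReal_mul] at h6
    linarith
  have hlim : Tendsto (fun n : ℕ => (‖S‖ / c) ^ n) atTop (𝓝 0) :=
    tendsto_pow_atTop_nhds_zero_of_lt_one (by positivity) (by rw [div_lt_one hc0]; exact hc1)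
  have hge : ∀ n : ℕ, κ ≤ (‖S‖ / c) ^ n := by
    intro n
    rw [div_pow, le_div_iff₀ (by positivity), mul_comm]
    exact hlow n
  have := ge_of_tendsto' hlim hge
  linarith

theorem t_NRM : S_NRM := by
  intro A B _ _ τ τ' h h' x y hm
  have h1 := key τ τ' h h' x y hm
  have h2 := key τ' τ h' h y x fun n => (hm n).symm
  have h3 : ‖star x * x‖ = ‖star y * y‖ := le_antisymm h2 h1
  rw [CStarRing.norm_star_mul_self, CStarRing.norm_star_mul_self] at h3
  nlinarith [norm_nonneg x, norm_nonneg y, sq_nonneg (‖x‖ - ‖y‖), abs_nonneg (‖x‖ - ‖y‖),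
    (mul_self_inj (norm_nonneg x) (norm_nonneg y)).1 h3]

end Pool.Agent.H923R2.FP.T_NRM
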