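import Pool.Agent.H923R2.FZ.Stubs1

/-! Task SRB of h923z_tasks: stable rank one from free Haar unitaries. -/

set_option autoImplicit false

open scoped ComplexConjugate
open Filter Topology

noncomputable section

namespace Pool.Agent.H923R2.FZ.T_SRB

open Pool.Agent.H923R2.FP Pool.Agent.H923R2.FZ

variable {B : Type} [CStarAlgebra B]

theorem eq_one (τ : B →ₗ[ℂ] ℂ) (hτ : FTS τ) (b : B) (hb : ‖b‖ ≤ 1)
    (h : 1 ≤ (τ (star b * b)).re) : star b * b = 1 := by
  have h1 : (τ (star (1 - star b * b) * (1 - star b * b))).re ≤ 0 := by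
    have e : star (1 - star b * b) * (1 - star b * b) =
        1 - (2 : ℂ) • (star b * b) + (star b * b) * (star b * b) := by
      rw [star_sub, star_one, star_mul, star_star, two_smul]
      noncomm_ring
    rw [e, map_add, map_sub, map_smul, hτ.one, Complex.add_re, Complex.sub_re]
    have h2 : (τ ((star b * b) * (star b * b))).re ≤ 1 := by
      refine (Complex.re_le_norm _).trans ((hτ.bound _).trans ?_)
      have h3 : ‖star b * b‖ ≤ 1 := by
        rw [CStarRing.norm_star_mul_self]
        nlinarith [norm_nonneg b]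
      refine (norm_mul_le _ _).trans ?_
      nlinarith [norm_nonneg (star b * b)]
    have h3 : ((2 : ℂ) • τ (star b * b)).re = 2 * (τ (star b * b)).re := by
      rw [smul_eq_mul, Complex.mul_re]
      simp
    rw [h3, Complex.one_re]
    linarith
  have h4 := hτ.faith _ (le_antisymm h1 (hτ.nonneg _))
  exact (sub_eq_zero.1 h4).symm

theorem isUnit_one_sub_pow (x : B) (k : ℕ) (h : ‖x ^ (k + 1)‖ < 1) : IsUnit (1 - x) := by
  have h1 := isUnit_one_sub_of_norm_lt_one h
  have h2 : (1 - x) * (∑ i ∈ Finset.range (k + 1), x ^ i) = 1 - x ^ (k + 1) := by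
    rw [mul_neg_geom_sum]
  have h3 : (∑ i ∈ Finset.range (k + 1), x ^ i) * (1 - x) = 1 - x ^ (k + 1) := by
    rw [geom_sum_mul_neg]
  have hc : Commute (1 - x) (∑ i ∈ Finset.range (k + 1), x ^ i) := by
    unfold Commute SemiconjBy
    rw [h2, h3]
  rw [← h2] at h1
  exact (hc.isUnit_mul_iff.1 h1).1

theorem t_SRB (hRDG : S_RDG) : S_SRB := by
  intro B _ τ hτ hHU b hb
  have hnt : Nontrivial B := by
    refine ⟨⟨1, 0, fun h => ?_⟩⟩
    have := hτ.one
    rw [h, map_zero] at this
    exact zero_ne_one this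
  set t := (τ (star b * b)).re with ht
  have ht0 : 0 ≤ t := hτ.nonneg b
  rcases le_or_gt 1 t with h | h
  · refine ⟨b, ?_, by rw [sub_self, norm_zero]; exact one_pos⟩
    have h1 := eq_one τ hτ b hb h
    have h2 := eq_one τ hτ (star b) (by rw [norm_star]; exact hb) (by
      rw [star_star, hτ.comm]; exact h)
    rw [star_star] at h2
    exact ⟨⟨b, star b, h2, h1⟩, rfl⟩
  set η := (1 - t) / 8 with hη
  have hη0 : 0 < η := by rw [hη]; linarith
  have hη1 : η ≤ 1 / 8 := by rw [hη]; linarith
  obtain ⟨S, u, -, hn, hfree, happ⟩ := hHU {b} η hη0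
  obtain ⟨b', hb', hbb⟩ := happ b (Finset.mem_singleton_self b)
  set l := 1 - 2 * η with hl
  have hl0 : 0 < l := by rw [hl]; linarith
  -- the 2-norm of `b'`
  have hnb : nt τ b' < l := by
    unfold nt
    rw [Real.sqrt_lt' hl0]
    set e := b - b' with he
    have e1 : star b' * b' = star b * b - star b * e - star e * b + star e * e := by
      have : b' = b - e := by rw [he]; abel
      rw [this, star_sub]
      noncomm_ring
    rw [e1, map_add, map_sub, map_sub, Complex.add_re, Complex.sub_re, Complex.sub_re]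
    have n1 : -(τ (star b * e)).re ≤ η := by
      refine (neg_le_abs _).trans ((Complex.abs_re_le_norm _).trans ((hτ.bound _).trans ?_))
      refine (norm_mul_le _ _).trans ?_
      rw [norm_star]
      nlinarith [norm_nonneg e, norm_nonneg b]
    have n2 : -(τ (star e * b)).re ≤ η := by
      refine (neg_le_abs _).trans ((Complex.abs_re_le_norm _).trans ((hτ.bound _).trans ?_))
      refine (norm_mul_le _ _).trans ?_
      rw [norm_star]
      nlinarith [norm_nonneg e, norm_nonneg b]
    have n3 : (τ (star e * e)).re ≤ η := by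
      refine (Complex.re_le_norm _).trans ((hτ.bound _).trans ?_)
      refine (norm_mul_le _ _).trans ?_
      rw [norm_star]
      nlinarith [norm_nonneg e]
    have h8 : t = 1 - 8 * η := by rw [hη]; ring
    rw [← ht, h8]
    nlinarith
  have hnb0 : 0 ≤ nt τ b' := Real.sqrt_nonneg _
  set r := nt τ b' / l with hr
  have hr0 : 0 ≤ r := by positivity
  have hr1 : r < 1 := by rw [hr, div_lt_one hl0]; exact hnb
  -- a power of small norm
  have hlim : Tendsto (fun k : ℕ => ((k : ℝ) * r ^ k + 2 * r ^ k) * (‖b'‖ / l)) atTop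
      (𝓝 ((0 + 2 * 0) * (‖b'‖ / l))) :=
    ((tendsto_self_mul_const_pow_of_lt_one hr0 hr1).add
      ((tendsto_pow_atTop_nhds_zero_of_lt_one hr0 hr1).const_mul 2)).mul_const _
  rw [mul_zero, add_zero, zero_mul] at hlim
  obtain ⟨k, hk⟩ := ((tendsto_order.1 hlim).2 1 one_pos).exists
  set x : B := ((l⁻¹ : ℝ) : ℂ) • ((u : B) * b') with hx
  have hxk : ‖x ^ (k + 1)‖ < 1 := by
    rw [hx, smul_pow, norm_smul, norm_pow, Complex.norm_real, Real.norm_eq_abs,
      abs_of_pos (inv_pos.2 hl0)]
    have h5 := hRDG B τ hτ S u hn hfree b' hb' k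
    calc l⁻¹ ^ (k + 1) * ‖((u : B) * b') ^ (k + 1)‖
        ≤ l⁻¹ ^ (k + 1) * ((k + 2) * ‖b'‖ * nt τ b' ^ k) := by gcongr
      _ = ((k : ℝ) * r ^ k + 2 * r ^ k) * (‖b'‖ / l) := by
          rw [hr, div_pow, pow_succ, inv_pow]
          field_simp
      _ < 1 := hk
  have hux := isUnit_one_sub_pow x k hxk
  have hlC : (l : ℂ) ≠ 0 := by exact_mod_cast hl0.ne'
  have hu1 : star (u : B) * (u : B) = 1 := Unitary.coe_star_mul_self u
  have hu2 : (u : B) * star (u : B) = 1 := Unitary.coe_mul_star_self u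
  refine ⟨b' - (l : ℂ) • star (u : B), ?_, ?_⟩
  · have e1 : b' - (l : ℂ) • star (u : B) = (-star (u : B)) * ((l : ℂ) • (1 - x)) := by
      rw [smul_sub, hx, smul_smul, Complex.ofReal_inv, mul_inv_cancel₀ hlC, one_smul, mul_sub,
        neg_mul, neg_mul, ← mul_assoc, hu1, one_mul, mul_smul_comm, mul_one]
      abel
    rw [e1]
    refine IsUnit.mul ?_ ?_
    · refine IsUnit.neg ⟨⟨star (u : B), (u : B), hu1, hu2⟩, rfl⟩
    · have : IsUnit ((l : ℂ) • (1 : B)) := by
        refine ⟨⟨(l : ℂ) • (1 : B), (l : ℂ)⁻¹ • (1 : B), ?_, ?_⟩, rfl⟩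
        · rw [smul_mul_smul_comm, mul_inv_cancel₀ hlC, one_mul, one_smul]
        · rw [smul_mul_smul_comm, inv_mul_cancel₀ hlC, one_mul, one_smul]
      have h6 : (l : ℂ) • (1 - x) = ((l : ℂ) • (1 : B)) * (1 - x) := by
        rw [smul_mul_assoc, one_mul]
      rw [h6]
      exact this.mul hux
  · have e2 : b - (b' - (l : ℂ) • star (u : B)) = (b - b') + (l : ℂ) • star (u : B) := by abel
    rw [e2]
    refine (norm_add_le _ _).trans_lt ?_
    rw [norm_smul, Complex.norm_real, Real.norm_eq_abs, abs_of_pos hl0, norm_star,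
      CStarRing.norm_coe_unitary, mul_one]
    rw [hl]
    linarith

end Pool.Agent.H923R2.FZ.T_SRB
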